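import Mathlib
import Pool.Agent.Helper20.Mono.GoalsG

/-!
MP_aa7fc1_ag, packet G2: lattice duality.
-/

namespace Mono

open Finset

namespace G2

variable {n : ℕ}

/-! ### Indices and functionals -/

lemma relIndex_fun {G : Type*} [AddCommGroup G] (F : G →+ ℤ) {N M : AddSubgroup G} (h : N ≤ M) :
    N.relIndex M = (N ⊓ F.ker).relIndex (M ⊓ F.ker) * (N.map F).relIndex (M.map F) := by
  have h1 : N.relIndex ((AddSubgroup.comap F (N.map F)) ⊓ M) *
      (AddSubgroup.comap F (N.map F)).relIndex M = (N ⊓ AddSubgroup.comap F (N.map F)).relIndex M :=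
    AddSubgroup.relIndex_inf_mul_relIndex _ _ _
  have h2 : N ⊓ AddSubgroup.comap F (N.map F) = N := inf_of_le_left (AddSubgroup.le_comap_map F N)
  have h3 : AddSubgroup.comap F (N.map F) ⊓ M = N ⊔ (M ⊓ F.ker) := by
    rw [AddSubgroup.comap_map_eq]
    apply le_antisymm
    · rintro x ⟨hx1, hx2⟩
      obtain ⟨y, hy, z, hz, rfl⟩ := AddSubgroup.mem_sup.1 hx1
      refine AddSubgroup.mem_sup.2 ⟨y, hy, z, ⟨?_, hz⟩, rfl⟩
      have : y + z - y ∈ M := AddSubgroup.sub_mem _ hx2 (h hy)
      simpa using this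
    · exact sup_le (le_inf le_sup_left h) (le_inf (inf_le_right.trans le_sup_right) inf_le_left)
  rw [h2, h3, AddSubgroup.relIndex_sup_left, AddSubgroup.relIndex_comap] at h1
  rw [← h1]
  congr 1
  rw [← AddSubgroup.inf_relIndex_right N (M ⊓ F.ker), ← inf_assoc, inf_of_le_left h]

lemma closure_le_sat (B : Set (Fin n → ℤ)) : AddSubgroup.closure B ≤ sat B :=
  fun x hx => ⟨1, one_ne_zero, by simpa using hx⟩

lemma sat_map_zero {F : (Fin n → ℤ) →+ ℤ} {B : Set (Fin n → ℤ)} (hB : ∀ b ∈ B, F b = 0) :
    ∀ x ∈ sat B, F x = 0 := by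
  rintro x ⟨k, hk, hx⟩
  have h1 : AddSubgroup.closure B ≤ F.ker := by
    rw [AddSubgroup.closure_le]
    exact fun b hb => hB b hb
  have h2 : F (k • x) = 0 := h1 hx
  rw [map_zsmul, smul_eq_mul] at h2
  exact (mul_eq_zero.1 h2).resolve_left hk

lemma mem_closure_insert {B : Set (Fin n → ℤ)} {x z : Fin n → ℤ} :
    z ∈ AddSubgroup.closure (insert x B) ↔
      ∃ k : ℤ, ∃ b ∈ AddSubgroup.closure B, z = k • x + b := by
  rw [Set.insert_eq, AddSubgroup.closure_union, AddSubgroup.mem_sup]
  constructor
  · rintro ⟨y, hy, b, hb, rfl⟩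
    obtain ⟨k, rfl⟩ := AddSubgroup.mem_closure_singleton.1 hy
    exact ⟨k, b, hb, rfl⟩
  · rintro ⟨k, b, hb, rfl⟩
    exact ⟨k • x, AddSubgroup.mem_closure_singleton.2 ⟨k, rfl⟩, b, hb, rfl⟩

/-- The basic index formula. -/
lemma idx_insert (F : (Fin n → ℤ) →+ ℤ) {B : Set (Fin n → ℤ)} (hB : ∀ b ∈ B, F b = 0)
    {x : Fin n → ℤ} (hx : F x ≠ 0) (h1 : ∃ y ∈ sat (insert x B), F y = 1) :
    idx (insert x B) = idx B * (F x).natAbs := by
  unfold idx
  rw [relIndex_fun F (closure_le_sat _)]
  have hcl : ∀ b ∈ AddSubgroup.closure B, F b = 0 := fun b hb =>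
    sat_map_zero hB b (closure_le_sat _ hb)
  have e1 : AddSubgroup.closure (insert x B) ⊓ F.ker = AddSubgroup.closure B := by
    apply le_antisymm
    · rintro z ⟨hz1, hz2⟩
      obtain ⟨k, b, hb, rfl⟩ := mem_closure_insert.1 hz1
      have h3 : F (k • x + b) = 0 := hz2
      rw [map_add, hcl b hb, add_zero, map_zsmul, smul_eq_mul] at h3
      have hk : k = 0 := (mul_eq_zero.1 h3).resolve_right hx
      rw [hk, zero_smul, zero_add]
      exact hb
    · intro z hz
      exact ⟨AddSubgroup.closure_mono (Set.subset_insert _ _) hz, hcl z hz⟩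
  have e2 : sat (insert x B) ⊓ F.ker = sat B := by
    apply le_antisymm
    · rintro z ⟨⟨k, hk, hz1⟩, hz2⟩
      refine ⟨k, hk, ?_⟩
      have : k • z ∈ AddSubgroup.closure (insert x B) ⊓ F.ker :=
        ⟨hz1, AddSubgroup.zsmul_mem _ hz2 k⟩
      rwa [e1] at this
    · intro z hz
      obtain ⟨k, hk, hz1⟩ := hz
      exact ⟨⟨k, hk, AddSubgroup.closure_mono (Set.subset_insert _ _) hz1⟩,
        sat_map_zero hB z ⟨k, hk, hz1⟩⟩
  have e3 : (AddSubgroup.closure (insert x B)).map F = AddSubgroup.zmultiples (F x) := by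
    apply le_antisymm
    · rintro _ ⟨z, hz, rfl⟩
      obtain ⟨k, b, hb, rfl⟩ := mem_closure_insert.1 hz
      rw [map_add, hcl b hb, add_zero, map_zsmul]
      exact AddSubgroup.zsmul_mem_zmultiples _ _
    · rw [AddSubgroup.zmultiples_le]
      exact ⟨x, AddSubgroup.subset_closure (Set.mem_insert _ _), rfl⟩
  have e4 : (sat (insert x B)).map F = ⊤ := by
    rw [eq_top_iff]
    intro z _
    obtain ⟨y, hy, hy1⟩ := h1
    refine ⟨z • y, AddSubgroup.zsmul_mem _ hy z, ?_⟩
    rw [map_zsmul, hy1]
    simp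
  rw [e1, e2, e3, e4, AddSubgroup.relIndex_top_right, Int.index_zmultiples]

/-! ### Extension of functionals -/

/-- `sat` is saturated. -/
lemma sat_sat {B : Set (Fin n → ℤ)} {k : ℤ} (hk : k ≠ 0) {z : Fin n → ℤ} (h : k • z ∈ sat B) :
    z ∈ sat B := by
  obtain ⟨l, hl, h1⟩ := h
  exact ⟨l * k, mul_ne_zero hl hk, by rw [mul_smul]; exact h1⟩

/-- Extension of functionals from saturated submodules. -/
lemma extend {M : Submodule ℤ (Fin n → ℤ)} (hM : ∀ k : ℤ, k ≠ 0 → ∀ z, k • z ∈ M → z ∈ M)
    (f : M →ₗ[ℤ] ℤ) : ∃ F : (Fin n → ℤ) →ₗ[ℤ] ℤ, ∀ z : M, F z = f z := by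
  have : Module.IsTorsionFree ℤ ((Fin n → ℤ) ⧸ M) := by
    rw [Module.isTorsionFree_iff_smul_eq_zero]
    intro k x hkx
    obtain ⟨z, rfl⟩ := Submodule.mkQ_surjective M x
    by_cases hk : k = 0
    · exact Or.inl hk
    · right
      rw [← map_smul, Submodule.mkQ_apply, Submodule.Quotient.mk_eq_zero] at hkx
      rw [Submodule.mkQ_apply, Submodule.Quotient.mk_eq_zero]
      exact hM k hk z hkx
  obtain ⟨s, hs⟩ := Module.projective_lifting_property M.mkQ LinearMap.id
    (Submodule.mkQ_surjective M)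
  have hmem : ∀ z, z - s (M.mkQ z) ∈ M := by
    intro z
    rw [← Submodule.Quotient.mk_eq_zero, ← Submodule.mkQ_apply, map_sub]
    have : M.mkQ (s (M.mkQ z)) = M.mkQ z := congrArg (fun φ => φ (M.mkQ z)) hs
    rw [this, sub_self]
  refine ⟨f ∘ₗ (LinearMap.codRestrict M (LinearMap.id - s ∘ₗ M.mkQ) hmem), fun z => ?_⟩
  rw [LinearMap.comp_apply]
  congr 1
  apply Subtype.ext
  have h0 : M.mkQ (z : Fin n → ℤ) = 0 := by
    rw [Submodule.mkQ_apply, Submodule.Quotient.mk_eq_zero]
    exact z.2
  simp [h0]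

/-- Functionals are scalar products. -/
lemma exists_dot (F : (Fin n → ℤ) →ₗ[ℤ] ℤ) : ∃ κ : Fin n → ℤ, ∀ z, κ ⬝ᵥ z = F z := by
  refine ⟨fun i => F (Pi.single i 1), fun z => ?_⟩
  have h : z = ∑ i, z i • (Pi.single i 1 : Fin n → ℤ) := by
    funext j
    simp [Finset.sum_apply, Pi.single_apply]
  conv_rhs => rw [h, map_sum]
  unfold dotProduct
  apply Finset.sum_congr rfl
  intro i _
  rw [map_smul, smul_eq_mul, mul_comm]

/-! ### Ranks -/

lemma toR_sum {ι : Type*} (s : Finset ι) (c : ι → ℤ) (b : ι → Fin n → ℤ) :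
    toR (∑ i ∈ s, c i • b i) = ∑ i ∈ s, (c i : ℝ) • toR (b i) := by
  funext j
  simp [Finset.sum_apply]

/-- Integer vectors, linearly independent over the integers, are linearly independent over the
real numbers. -/
lemma indep_toR {ι : Type*} [Fintype ι] {b : ι → Fin n → ℤ} (hb : LinearIndependent ℤ b) :
    LinearIndependent ℝ (fun i => toR (b i)) := by
  classical
  rw [Fintype.linearIndependent_iff]
  intro c hc
  -- rational relations
  have hq : ∀ q : ι → ℚ, (∀ l, ∑ i, q i * (b i l : ℚ) = 0) → ∀ i, q i = 0 := by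
    intro q hq
    obtain ⟨N, hN⟩ := IsLocalization.exist_integer_multiples_of_finite (nonZeroDivisors ℤ) q
    have hN0 : (N : ℤ) ≠ 0 := nonZeroDivisors.ne_zero N.2
    choose p hp using hN
    have hp' : ∀ i, (p i : ℚ) = (N : ℤ) * q i := by
      intro i
      have := hp i
      rw [Algebra.smul_def] at this
      simpa using this
    have h1 : ∑ i, p i • b i = 0 := by
      funext l
      have h2 : ((∑ i, p i * b i l : ℤ) : ℚ) = 0 := by
        push_cast
        simp_rw [hp', mul_assoc]
        rw [← Finset.mul_sum, hq l, mul_zero]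
      have h3 : ∑ i, p i * b i l = 0 := by exact_mod_cast h2
      simpa [Finset.sum_apply] using h3
    have h2 := (Fintype.linearIndependent_iff.1 hb) p h1
    intro i
    have h3 := hp' i
    rw [h2 i] at h3
    have h4 : ((N : ℤ) : ℚ) ≠ 0 := by exact_mod_cast hN0
    have h5 : ((N : ℤ) : ℚ) * q i = 0 := by rw [← h3]; simp
    exact (mul_eq_zero.1 h5).resolve_left h4
  let B := Module.Basis.ofVectorSpace ℚ ℝ
  have h1 : ∀ j i, B.repr (c i) j = 0 := by
    intro j
    apply hq
    intro l
    have h2 : ∑ i, c i * (b i l : ℝ) = 0 := by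
      have := congrFun hc l
      simpa [Finset.sum_apply] using this
    have h3 : B.repr (∑ i, c i * (b i l : ℝ)) j = 0 := by
      rw [h2]; simp
    rw [map_sum, Finsupp.finsetSum_apply] at h3
    rw [← h3]
    apply Finset.sum_congr rfl
    intro i _
    have h4 : c i * (b i l : ℝ) = ((b i l : ℚ)) • c i := by
      rw [Algebra.smul_def, mul_comm]
      simp
    rw [h4, map_smul, Finsupp.smul_apply, smul_eq_mul, mul_comm]
  intro i
  have h2 : B.repr (c i) = 0 := by
    ext j
    exact h1 j i
  exact (LinearEquiv.map_eq_zero_iff _).1 h2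

/-- `toR` as a linear map over the integers. -/
def toRL (n : ℕ) : (Fin n → ℤ) →ₗ[ℤ] (Fin n → ℝ) where
  toFun := toR
  map_add' := toR_add
  map_smul' := by
    intro k x
    funext i
    simp

/-- Ranks over the integers and over the reals. -/
lemma finrank_eq (S : Submodule ℤ (Fin n → ℤ)) :
    Module.finrank ℝ (Submodule.span ℝ (toR '' (S : Set (Fin n → ℤ)))) = Module.finrank ℤ S := by
  let b := Module.finBasis ℤ S
  have hb : LinearIndependent ℤ (fun i => (b i : Fin n → ℤ)) :=
    b.linearIndependent.map' S.subtype (Submodule.ker_subtype S)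
  have h1 := indep_toR hb
  have h2 : Submodule.span ℝ (toR '' (S : Set (Fin n → ℤ))) =
      Submodule.span ℝ (Set.range (fun i => toR (b i : Fin n → ℤ))) := by
    apply le_antisymm
    · rw [Submodule.span_le]
      rintro _ ⟨x, hx, rfl⟩
      have h3 := b.sum_repr ⟨x, hx⟩
      have h4 : x = ∑ i, (b.repr ⟨x, hx⟩ i) • (b i : Fin n → ℤ) := by
        have := congrArg (fun y : S => (y : Fin n → ℤ)) h3
        simp only [Submodule.coe_sum, Submodule.coe_smul] at this
        exact this.symm
      rw [h4, toR_sum]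
      exact Submodule.sum_mem _ (fun i _ => Submodule.smul_mem _ _
        (Submodule.subset_span ⟨i, rfl⟩))
    · rw [Submodule.span_le]
      rintro _ ⟨i, rfl⟩
      exact Submodule.subset_span ⟨_, (b i).2, rfl⟩
  rw [h2, finrank_span_eq_card h1, Fintype.card_fin]

lemma span_toR_span (B : Set (Fin n → ℤ)) :
    Submodule.span ℝ (toR '' (Submodule.span ℤ B : Set (Fin n → ℤ))) =
      Submodule.span ℝ (toR '' B) := by
  apply le_antisymm
  · rw [Submodule.span_le]
    rintro _ ⟨x, hx, rfl⟩
    induction hx using Submodule.span_induction with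
    | mem x hx => exact Submodule.subset_span ⟨x, hx, rfl⟩
    | zero =>
      rw [toR_zero]
      exact Submodule.zero_mem _
    | add x y _ _ hx hy =>
      rw [toR_add]
      exact Submodule.add_mem _ hx hy
    | smul k x _ hx =>
      have : toR (k • x) = (k : ℝ) • toR x := by funext i; simp
      rw [this]
      exact Submodule.smul_mem _ _ hx
  · exact Submodule.span_mono (Set.image_mono Submodule.subset_span)

/-- the submodule `sat B` -/
def satM (B : Set (Fin n → ℤ)) : Submodule ℤ (Fin n → ℤ) := AddSubgroup.toIntSubmodule (sat B)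

lemma mem_satM {B : Set (Fin n → ℤ)} {x : Fin n → ℤ} : x ∈ satM B ↔ x ∈ sat B := Iff.rfl

lemma span_toR_sat (B : Set (Fin n → ℤ)) :
    Submodule.span ℝ (toR '' (satM B : Set (Fin n → ℤ))) = Submodule.span ℝ (toR '' B) := by
  apply le_antisymm
  · rw [Submodule.span_le]
    rintro _ ⟨x, ⟨k, hk, hx⟩, rfl⟩
    have h1 : toR (k • x) ∈ Submodule.span ℝ (toR '' B) := by
      rw [← span_toR_span]
      apply Submodule.subset_span
      refine ⟨_, ?_, rfl⟩
      have : k • x ∈ (Submodule.span ℤ B).toAddSubgroup := by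
        rw [Submodule.span_int_eq_addSubgroupClosure]
        exact hx
      exact this
    have h2 : toR x = ((k : ℝ)⁻¹) • toR (k • x) := by
      have hk' : (k : ℝ) ≠ 0 := by exact_mod_cast hk
      funext i
      simp [hk']
    rw [h2]
    exact Submodule.smul_mem _ _ h1
  · apply Submodule.span_mono
    apply Set.image_mono
    intro x hx
    exact closure_le_sat _ (AddSubgroup.subset_closure hx)

/-- Integer points of the real span are in `sat`. -/
lemma mem_sat_of_mem_span {B : Set (Fin n → ℤ)} {x : Fin n → ℤ}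
    (h : toR x ∈ Submodule.span ℝ (toR '' B)) : x ∈ sat B := by
  by_contra hx
  let b := Module.finBasis ℤ (satM B)
  have hb : LinearIndependent ℤ (fun i => (b i : Fin n → ℤ)) :=
    b.linearIndependent.map' (satM B).subtype (Submodule.ker_subtype _)
  have hspan : Submodule.span ℤ (Set.range (fun i => (b i : Fin n → ℤ))) ≤ satM B := by
    rw [Submodule.span_le]
    rintro _ ⟨i, rfl⟩
    exact (b i).2
  have h1 : LinearIndependent ℤ (Fin.cons x (fun i => (b i : Fin n → ℤ)) :
      Fin (Module.finrank ℤ (satM B) + 1) → Fin n → ℤ) := by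
    apply LinearIndependent.finCons' x _ hb
    intro c y hy hcy
    by_contra hc
    apply hx
    apply sat_sat hc
    have : c • x = -(y : Fin n → ℤ) := eq_neg_of_add_eq_zero_left hcy
    rw [this]
    exact AddSubgroup.neg_mem _ (hspan hy)
  have h2 := indep_toR h1
  have h3 : (fun i => toR ((Fin.cons x (fun i => (b i : Fin n → ℤ)) :
      Fin (Module.finrank ℤ (satM B) + 1) → Fin n → ℤ) i)) =
      Fin.cons (toR x) (fun i => toR (b i : Fin n → ℤ)) := by
    funext i
    refine Fin.cases ?_ (fun j => ?_) i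
    · simp
    · simp
  rw [h3, linearIndependent_finCons] at h2
  apply h2.2
  rw [← span_toR_sat] at h
  refine Submodule.span_le.2 ?_ h
  rintro _ ⟨y, hy, rfl⟩
  have h4 := b.sum_repr ⟨y, hy⟩
  have h5 : y = ∑ i, (b.repr ⟨y, hy⟩ i) • (b i : Fin n → ℤ) := by
    have := congrArg (fun y : satM B => (y : Fin n → ℤ)) h4
    simp only [Submodule.coe_sum, Submodule.coe_smul] at this
    exact this.symm
  rw [h5, toR_sum]
  exact Submodule.sum_mem _ (fun i _ => Submodule.smul_mem _ _
    (Submodule.subset_span ⟨i, rfl⟩))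

/-! ### The orthogonal lattice -/

/-- integer vectors orthogonal to `E` -/
def orth (E : Set (Fin n → ℤ)) : Submodule ℤ (Fin n → ℤ) where
  carrier := {a | ∀ e ∈ E, a ⬝ᵥ e = 0}
  zero_mem' := fun e _ => by simp
  add_mem' := by
    intro a b ha hb e he
    rw [add_dotProduct, ha e he, hb e he, add_zero]
  smul_mem' := by
    intro c a ha e he
    rw [smul_dotProduct, ha e he, smul_zero]

lemma mem_orth {E : Set (Fin n → ℤ)} {a : Fin n → ℤ} : a ∈ orth E ↔ ∀ e ∈ E, a ⬝ᵥ e = 0 := Iff.rfl

lemma orth_span {E : Set (Fin n → ℤ)} {a : Fin n → ℤ} (ha : a ∈ orth E) :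
    ∀ e ∈ Submodule.span ℤ E, a ⬝ᵥ e = 0 := by
  intro e he
  induction he using Submodule.span_induction with
  | mem x hx => exact ha x hx
  | zero => simp
  | add x y _ _ hx hy => rw [dotProduct_add, hx, hy, add_zero]
  | smul k x _ hx => rw [dotProduct_smul, hx, smul_zero]

lemma toR_dot (a b : Fin n → ℤ) : toR a ⬝ᵥ toR b = ((a ⬝ᵥ b : ℤ) : ℝ) := by
  unfold dotProduct
  push_cast
  rfl

lemma finrank_orth (E : Set (Fin n → ℤ)) : Module.finrank ℤ (orth E) +
    Module.finrank ℝ (Submodule.span ℝ (toR '' E)) = n := by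
  apply le_antisymm
  · rw [← finrank_eq]
    have hdis : Disjoint (Submodule.span ℝ (toR '' (orth E : Set (Fin n → ℤ))))
        (Submodule.span ℝ (toR '' E)) := by
      rw [Submodule.disjoint_def]
      intro y hy1 hy2
      have h1 : ∀ y ∈ Submodule.span ℝ (toR '' (orth E : Set (Fin n → ℤ))),
          ∀ z ∈ Submodule.span ℝ (toR '' E), y ⬝ᵥ z = 0 := by
        intro y hy z hz
        induction hy using Submodule.span_induction with
        | mem y hy =>
          obtain ⟨a, ha, rfl⟩ := hy
          induction hz using Submodule.span_induction with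
          | mem z hz =>
            obtain ⟨e, he, rfl⟩ := hz
            rw [toR_dot, ha e he]
            simp
          | zero => simp
          | add x y _ _ hx hy => rw [dotProduct_add, hx, hy, add_zero]
          | smul k x _ hx => rw [dotProduct_smul, hx, smul_zero]
        | zero => simp
        | add x y _ _ hx hy => rw [add_dotProduct, hx, hy, add_zero]
        | smul k x _ hx => rw [smul_dotProduct, hx, smul_zero]
      exact dotProduct_self_eq_zero.1 (h1 y hy1 y hy2)
    have h2 := Submodule.finrank_add_finrank_le_of_disjoint hdis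
    simpa using h2
  · rw [← span_toR_span, finrank_eq]
    let b := Module.finBasis ℤ (Submodule.span ℤ E)
    let φ : (Fin n → ℤ) →ₗ[ℤ] (Fin (Module.finrank ℤ (Submodule.span ℤ E)) → ℤ) :=
      { toFun := fun a i => a ⬝ᵥ (b i : Fin n → ℤ)
        map_add' := by
          intro x y
          funext i
          simp [add_dotProduct]
        map_smul' := by
          intro k x
          funext i
          exact smul_dotProduct k x _ }
    have hker : LinearMap.ker φ ≤ orth E := by
      intro a ha e he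
      have h1 : ∀ i, a ⬝ᵥ (b i : Fin n → ℤ) = 0 := fun i => congrFun ha i
      have h2 := b.sum_repr ⟨e, Submodule.subset_span he⟩
      have h3 : e = ∑ i, (b.repr ⟨e, Submodule.subset_span he⟩ i) • (b i : Fin n → ℤ) := by
        have := congrArg (fun y : Submodule.span ℤ E => (y : Fin n → ℤ)) h2
        simp only [Submodule.coe_sum, Submodule.coe_smul] at this
        exact this.symm
      rw [h3, dotProduct_sum]
      apply Finset.sum_eq_zero
      intro i _
      rw [dotProduct_smul, h1 i, smul_zero]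
    have h4 := Submodule.finrank_quotient_add_finrank (LinearMap.ker φ)
    rw [LinearEquiv.finrank_eq (LinearMap.quotKerEquivRange φ)] at h4
    have h5 : Module.finrank ℤ (LinearMap.range φ) ≤ Module.finrank ℤ (Submodule.span ℤ E) := by
      have := Submodule.finrank_le (LinearMap.range φ)
      simpa using this
    have h6 : Module.finrank ℤ (LinearMap.ker φ) ≤ Module.finrank ℤ (orth E) :=
      Submodule.finrank_mono hker
    have h7 : Module.finrank ℤ (Fin n → ℤ) = n := by simp
    omega

lemma sat_le_orth {E D : Set (Fin n → ℤ)} (hED : ∀ e ∈ E, ∀ d ∈ D, e ⬝ᵥ d = 0) :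
    satM D ≤ orth E := by
  rintro x ⟨k, hk, hx⟩ e he
  have h1 : ∀ y ∈ AddSubgroup.closure D, y ⬝ᵥ e = 0 := by
    intro y hy
    induction hy using AddSubgroup.closure_induction with
    | mem y hy => rw [dotProduct_comm]; exact hED e he y hy
    | zero => simp
    | add x y _ _ hx hy => rw [add_dotProduct, hx, hy, add_zero]
    | neg x _ hx => rw [neg_dotProduct, hx, neg_zero]
  have h2 := h1 _ hx
  rw [smul_dotProduct, smul_eq_mul] at h2
  exact (mul_eq_zero.1 h2).resolve_left hk

lemma orth_sat (E : Set (Fin n → ℤ)) : ∀ k : ℤ, k ≠ 0 → ∀ z, k • z ∈ orth E → z ∈ orth E := by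
  intro k hk z hz e he
  have h1 := hz e he
  rw [smul_dotProduct, smul_eq_mul] at h1
  exact (mul_eq_zero.1 h1).resolve_left hk

/-- The functional defining `sat D` in the orthogonal lattice of `E`. -/
lemma exists_coef {E D : Set (Fin n → ℤ)} (hED : ∀ e ∈ E, ∀ d ∈ D, e ⬝ᵥ d = 0)
    (hr : Module.finrank ℝ (Submodule.span ℝ (toR '' E)) +
      Module.finrank ℝ (Submodule.span ℝ (toR '' D)) + 1 = n) :
    ∃ F : (Fin n → ℤ) →ₗ[ℤ] ℤ, (∀ a ∈ orth E, F a = 0 ↔ a ∈ sat D) ∧
      ∃ κ ∈ orth E, F κ = 1 := by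
  set V := orth E with hV
  set N : Submodule ℤ V := (satM D).comap V.subtype with hN
  have hle : satM D ≤ V := sat_le_orth hED
  have h1 := Submodule.finrank_quotient_add_finrank N
  have h2 : Module.finrank ℤ N = Module.finrank ℝ (Submodule.span ℝ (toR '' D)) := by
    rw [LinearEquiv.finrank_eq (Submodule.comapSubtypeEquivOfLe hle), ← finrank_eq,
      span_toR_sat]
  have h3 := finrank_orth E
  have h4 : Module.finrank ℤ (V ⧸ N) = 1 := by
    rw [h2] at h1
    rw [← hV] at h3
    omega
  have htf : Module.IsTorsionFree ℤ (V ⧸ N) := by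
    rw [Module.isTorsionFree_iff_smul_eq_zero]
    intro k x hkx
    obtain ⟨z, rfl⟩ := Submodule.mkQ_surjective N x
    by_cases hk : k = 0
    · exact Or.inl hk
    · right
      rw [← map_smul, Submodule.mkQ_apply, Submodule.Quotient.mk_eq_zero] at hkx
      rw [Submodule.mkQ_apply, Submodule.Quotient.mk_eq_zero]
      exact sat_sat hk hkx
  let b := Module.finBasisOfFinrankEq ℤ (V ⧸ N) h4
  let f : V →ₗ[ℤ] ℤ := b.coord 0 ∘ₗ N.mkQ
  have hf : ∀ a : V, f a = 0 ↔ (a : Fin n → ℤ) ∈ sat D := by
    intro a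
    have h5 : f a = 0 ↔ N.mkQ a = 0 := by
      constructor
      · intro h
        apply (LinearEquiv.map_eq_zero_iff b.repr).1
        refine Finsupp.ext (fun i => ?_)
        have hi : i = 0 := Subsingleton.elim _ _
        rw [hi]
        exact h
      · intro h
        change b.coord 0 (N.mkQ a) = 0
        rw [h, map_zero]
    rw [h5, Submodule.mkQ_apply, Submodule.Quotient.mk_eq_zero]
    rfl
  obtain ⟨F, hF⟩ := extend (orth_sat E) f
  refine ⟨F, fun a ha => ?_, ?_⟩
  · rw [hF ⟨a, ha⟩]
    exact hf ⟨a, ha⟩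
  · obtain ⟨κ, hκ⟩ := Submodule.mkQ_surjective N (b 0)
    refine ⟨κ, κ.2, ?_⟩
    rw [hF κ]
    change b.coord 0 (N.mkQ κ) = 1
    rw [hκ]
    simp

theorem dualLattice : DualLattice := by
  intro n E D hED hr
  obtain ⟨F, hF, κ, hκ, hFκ⟩ := exists_coef hED hr
  have hDsub : ∀ d ∈ D, d ∈ orth E := fun d hd =>
    sat_le_orth hED (closure_le_sat D (AddSubgroup.subset_closure hd))
  have hFD : ∀ d ∈ D, F d = 0 := fun d hd =>
    (hF d (hDsub d hd)).2 (closure_le_sat D (AddSubgroup.subset_closure hd))
  have hκsat : κ ∉ sat D := by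
    intro h
    have := (hF κ hκ).2 h
    rw [hFκ] at this
    exact one_ne_zero this
  refine ⟨κ, hκ, fun h => hκsat (mem_sat_of_mem_span h), ?_, ?_⟩
  · intro a ha
    have ha' : a ∈ orth E := ha
    have hmem : a - F a • κ ∈ orth E := Submodule.sub_mem _ ha' (Submodule.smul_mem _ _ hκ)
    have hsat : a - F a • κ ∈ sat D := by
      apply (hF _ hmem).1
      rw [map_sub, map_smul, hFκ, smul_eq_mul, mul_one, sub_self]
    refine ⟨F a, hsat, fun hm => ?_⟩
    have h1 := idx_insert (F : (Fin n → ℤ) →+ ℤ) (B := D) (x := a) (fun d hd => hFD d hd) hm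
    apply h1
    refine ⟨κ, ?_, hFκ⟩
    obtain ⟨k, hk, h2⟩ := hsat
    refine ⟨k * F a, mul_ne_zero hk hm, ?_⟩
    have e : (k * F a) • κ = k • a + -(k • (a - F a • κ)) := by
      rw [smul_sub, smul_smul]
      abel
    rw [e, mem_closure_insert]
    exact ⟨k, _, AddSubgroup.neg_mem _ h2, rfl⟩
  · intro x hx hκx
    -- the functional `κ ⬝ᵥ ·`
    let L : (Fin n → ℤ) →ₗ[ℤ] ℤ :=
      { toFun := fun z => κ ⬝ᵥ z
        map_add' := fun y z => dotProduct_add κ y z
        map_smul' := fun k z => dotProduct_smul k κ z }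
    have hLE : ∀ e ∈ E, L e = 0 := fun e he => hκ e he
    have hLx : L x ≠ 0 := hκx
    set M : Submodule ℤ (Fin n → ℤ) := satM (insert x E) with hM
    have hxM : x ∈ M := closure_le_sat _ (AddSubgroup.subset_closure (Set.mem_insert _ _))
    have hEM : ∀ e ∈ E, e ∈ M := fun e he =>
      closure_le_sat _ (AddSubgroup.subset_closure (Set.mem_insert_of_mem _ he))
    have h1 : ∃ y ∈ sat (insert x E), L y = 1 := by
      -- image of `M`
      obtain ⟨g, hg⟩ : ∃ g : ℤ, M.map L = Ideal.span {g} := by
        have := (inferInstance : IsPrincipalIdealRing ℤ).principal (M.map L)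
        obtain ⟨g, hg⟩ := this
        exact ⟨g, hg⟩
      have hg0 : g ≠ 0 := by
        intro h0
        have : L x ∈ M.map L := Submodule.mem_map_of_mem hxM
        rw [hg, h0, Ideal.span_singleton_eq_bot.2 rfl] at this
        exact hLx this
      have hdvd : ∀ z ∈ M, g ∣ L z := by
        intro z hz
        have : L z ∈ M.map L := Submodule.mem_map_of_mem hz
        rw [hg] at this
        exact Ideal.mem_span_singleton.1 this
      choose q hq using hdvd
      let f : M →ₗ[ℤ] ℤ :=
        { toFun := fun z => q z z.2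
          map_add' := by
            intro y z
            apply mul_left_cancel₀ hg0
            rw [← hq, mul_add, ← hq, ← hq]
            exact map_add L _ _
          map_smul' := by
            intro k z
            apply mul_left_cancel₀ hg0
            rw [← hq]
            change L (k • (z : Fin n → ℤ)) = g * (k * q z z.2)
            rw [map_smul, hq z z.2, smul_eq_mul]
            ring }
      obtain ⟨F', hF'⟩ := extend (M := M) (fun k hk z hz => sat_sat hk hz) f
      obtain ⟨κ', hκ'⟩ := exists_dot F'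
      have hgF : ∀ z (hz : z ∈ M), g * F' z = L z := by
        intro z hz
        rw [hF' ⟨z, hz⟩]
        exact (hq z hz).symm
      have hκ'V : κ' ∈ orth E := by
        intro e he
        rw [hκ']
        have h2 := hgF e (hEM e he)
        rw [hLE e he] at h2
        exact (mul_eq_zero.1 h2).resolve_left hg0
      have hsat : κ' - F κ' • κ ∈ sat D := by
        apply (hF _ (Submodule.sub_mem _ hκ'V (Submodule.smul_mem _ _ hκ))).1
        rw [map_sub, map_smul, hFκ, smul_eq_mul, mul_one, sub_self]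
      have hx0 : (κ' - F κ' • κ) ⬝ᵥ x = 0 := by
        have : satM D ≤ orth {x} := by
          apply sat_le_orth
          intro e he d hd
          rw [Set.mem_singleton_iff] at he
          rw [he]
          exact hx d hd
        exact this hsat x rfl
      rw [sub_dotProduct, smul_dotProduct, smul_eq_mul, hκ'] at hx0
      have h3 := hgF x hxM
      have h4 : L x = κ ⬝ᵥ x := rfl
      have h5 : g * F κ' = 1 := by
        have h6 : g * (F κ' * L x) = L x := by
          have hA : F' x = F κ' * L x := by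
            rw [h4]
            linarith
          rw [← hA, h3]
        have h7 : (g * F κ' - 1) * L x = 0 := by linarith
        have := (mul_eq_zero.1 h7).resolve_right hLx
        linarith
      have h8 : (1 : ℤ) ∈ M.map L := by
        rw [hg, Ideal.mem_span_singleton]
        exact ⟨_, h5.symm⟩
      obtain ⟨y, hy, hy1⟩ := h8
      exact ⟨y, hy, hy1⟩
    exact idx_insert (L : (Fin n → ℤ) →+ ℤ) (B := E) (x := x) (fun e he => hLE e he) hLx h1

end G2

theorem dualLattice : DualLattice := G2.dualLattice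

end Mono
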